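import Pool.Agent.H5.FL.Stm3
import Pool.Agent.H78.FL.CLK
import Pool.Agent.H99.FL.OBS

/-!
# Crew FL: the generator of a test function along a policy (`SPolicy`)
-/

set_option autoImplicit false

open MeasureTheory ProbabilityTheory Filter Topology
open scoped NNReal ENNReal

universe u

namespace H41.FL
open H5.FL

section gen
variable {N : ℕ}

noncomputable def gB (f : (Fin N → ℝ) × (Fin N → ℝ) → ℝ) (y : (Fin N → ℝ) × (Fin N → ℝ))
    (j : Fin N) : ℝ := fderiv ℝ f y ((Pi.single j (1 : ℝ) : Fin N → ℝ), (0 : Fin N → ℝ))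

noncomputable def gC (f : (Fin N → ℝ) × (Fin N → ℝ) → ℝ) (y : (Fin N → ℝ) × (Fin N → ℝ))
    (j : Fin N) : ℝ := fderiv ℝ f y ((0 : Fin N → ℝ), (Pi.single j (1 : ℝ) : Fin N → ℝ))

noncomputable def gA (f : (Fin N → ℝ) × (Fin N → ℝ) → ℝ) (y : (Fin N → ℝ) × (Fin N → ℝ))
    (j : Fin N) : ℝ := gB (fun y => gB f y j) y j

lemma hasDeriv_fst (f : (Fin N → ℝ) × (Fin N → ℝ) → ℝ) (hf : Differentiable ℝ f)
    (x τ : Fin N → ℝ) (j : Fin N) (s : ℝ) :
    HasDerivAt (fun s => f (Function.update x j s, τ)) (gB f (Function.update x j s, τ) j) s := by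
  have h1 : HasDerivAt (fun s => (Function.update x j s, τ))
      ((Pi.single j (1 : ℝ) : Fin N → ℝ), (0 : Fin N → ℝ)) s :=
    (hasDerivAt_update x j s).prodMk (hasDerivAt_const s τ)
  exact (hf _).hasFDerivAt.comp_hasDerivAt s h1

lemma hasDeriv_snd (f : (Fin N → ℝ) × (Fin N → ℝ) → ℝ) (hf : Differentiable ℝ f)
    (x τ : Fin N → ℝ) (j : Fin N) (s : ℝ) :
    HasDerivAt (fun s => f (x, Function.update τ j s)) (gC f (x, Function.update τ j s) j) s := by
  have h1 : HasDerivAt (fun s => (x, Function.update τ j s))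
      ((0 : Fin N → ℝ), (Pi.single j (1 : ℝ) : Fin N → ℝ)) s :=
    (hasDerivAt_const s x).prodMk (hasDerivAt_update τ j s)
  exact (hf _).hasFDerivAt.comp_hasDerivAt s h1

lemma contDiff_gB (f : (Fin N → ℝ) × (Fin N → ℝ) → ℝ) (hf : ContDiff ℝ 2 f) (j : Fin N) :
    ContDiff ℝ 1 (fun y => gB f y j) := by
  unfold gB
  exact (hf.fderiv_right (m := 1) (by norm_num)).clm_apply contDiff_const

lemma gen_eq (μ : ℝ) (f : (Fin N → ℝ) × (Fin N → ℝ) → ℝ) (hf : ContDiff ℝ 2 f)
    (x τ : Fin N → ℝ) (j : Fin N) (hit : Prop) [Decidable hit] :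
    gen μ f x τ j hit = (1 / 2) * gA f (x, τ) j + (if hit then μ else 0) * gB f (x, τ) j +
      gC f (x, τ) j := by
  have hd : Differentiable ℝ f := hf.differentiable (by norm_num)
  have hd2 : Differentiable ℝ (fun y => gB f y j) :=
    (contDiff_gB f hf j).differentiable (by norm_num)
  unfold gen
  have e1 : deriv (fun s => f (Function.update x j s, τ)) =
      fun s => gB f (Function.update x j s, τ) j := by
    funext s
    exact (hasDeriv_fst f hd x τ j s).deriv
  have e2 : iteratedDeriv 2 (fun s => f (Function.update x j s, τ)) (x j) = gA f (x, τ) j := by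
    rw [show (2 : ℕ) = 1 + 1 from rfl, iteratedDeriv_succ, iteratedDeriv_one, e1]
    rw [(hasDeriv_fst (fun y => gB f y j) hd2 x τ j (x j)).deriv, Function.update_eq_self]
    rfl
  have e3 : deriv (fun s => f (x, Function.update τ j s)) (τ j) = gC f (x, τ) j := by
    rw [(hasDeriv_snd f hd x τ j (τ j)).deriv, Function.update_eq_self]
  rw [e2, e1, e3]
  simp only [Function.update_eq_self]

lemma cont_gB (f : (Fin N → ℝ) × (Fin N → ℝ) → ℝ) (hf : ContDiff ℝ 1 f) (j : Fin N) :
    Continuous (fun y => gB f y j) := by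
  unfold gB
  exact (hf.continuous_fderiv (by norm_num)).clm_apply continuous_const

lemma cont_gC (f : (Fin N → ℝ) × (Fin N → ℝ) → ℝ) (hf : ContDiff ℝ 1 f) (j : Fin N) :
    Continuous (fun y => gC f y j) := by
  unfold gC
  exact (hf.continuous_fderiv (by norm_num)).clm_apply continuous_const

lemma cont_gA (f : (Fin N → ℝ) × (Fin N → ℝ) → ℝ) (hf : ContDiff ℝ 2 f) (j : Fin N) :
    Continuous (fun y => gA f y j) := by
  unfold gA
  exact cont_gB _ (contDiff_gB f hf j) j

lemma gen_bdd (μ : ℝ) (f : (Fin N → ℝ) × (Fin N → ℝ) → ℝ) (hf : IsTest f) :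
    ∃ C : ℝ, 0 ≤ C ∧ (∀ y, |f y| ≤ C) ∧ ∀ (x τ : Fin N → ℝ) (j : Fin N) (hit : Prop)
      [Decidable hit], |gen μ f x τ j hit| ≤ C := by
  obtain ⟨C, hC⟩ := hf.bdd
  have hC0 : 0 ≤ C := (abs_nonneg _).trans (hC 0 0).1
  refine ⟨(1 / 2) * C + |μ| * C + C, by positivity, ?_, ?_⟩
  · intro y
    have := (hC y.1 y.2).1
    have h2 : 0 ≤ |μ| * C := by positivity
    simp only [Prod.mk.eta] at this
    linarith
  · intro x τ j hit _
    obtain ⟨h1, h2, h3⟩ := (hC x τ).2 j
    unfold gen
    refine (abs_add_le _ _).trans (add_le_add ((abs_add_le _ _).trans (add_le_add ?_ ?_)) h3)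
    · rw [abs_mul, abs_of_nonneg (by norm_num : (0 : ℝ) ≤ 1 / 2)]
      exact mul_le_mul_of_nonneg_left h2 (by norm_num)
    · rw [abs_mul]
      refine mul_le_mul ?_ h1 (abs_nonneg _) (abs_nonneg _)
      split_ifs
      · exact le_rfl
      · rw [abs_zero]; exact abs_nonneg _

end gen

section pol

variable {N : ℕ} {μ : ℝ} {Ω : Type u} [mΩ : MeasurableSpace Ω] {P : Measure Ω}
  [IsProbabilityMeasure P]

/-- the state -/
noncomputable def st (π : SPolicy N μ Ω P) (r : ℝ≥0) (ω : Ω) : (Fin N → ℝ) × (Fin N → ℝ) :=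
  (π.X r ω, clock π.J r ω)

lemma clock_cont (π : SPolicy N μ Ω P) (ω : Ω) : Continuous fun t => clock π.J t ω := by
  have hJ := H78.FL.J_joint π.obs π.J π.J_prog
  refine continuous_pi (fun j => ?_)
  have hJω : Measurable fun s : ℝ => π.J s.toNNReal ω :=
    hJ.comp (measurable_real_toNNReal.prodMk measurable_const)
  have hF : Measurable fun s : ℝ => if π.J s.toNNReal ω = j then (1 : ℝ) else 0 :=
    Measurable.ite (hJω (measurableSet_singleton j)) measurable_const measurable_const
  have hint : ∀ a b : ℝ, IntervalIntegrable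
      (fun s : ℝ => if π.J s.toNNReal ω = j then (1 : ℝ) else 0) volume a b := by
    intro a b
    refine (intervalIntegrable_const (c := (1 : ℝ))).mono_fun hF.aestronglyMeasurable ?_
    refine Filter.Eventually.of_forall (fun s => ?_)
    simp only
    split_ifs <;> simp
  exact (intervalIntegral.continuous_primitive hint 0).comp NNReal.continuous_coe

lemma st_meas (π : SPolicy N μ Ω P) : Measurable (fun p : ℝ≥0 × Ω => st π p.1 p.2) := by
  have hXm : ∀ r, Measurable (π.X r) := fun r => (π.X_adapted r).mono (π.obs.le r) le_rfl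
  have hCm : ∀ r, Measurable (clock π.J r) := fun r =>
    (H78.FL.clock_measurable (π.obs r) π.J r (π.J_prog r)).mono (π.obs.le r) le_rfl
  have hXu : Measurable (Function.uncurry π.X) :=
    measurable_uncurry_of_continuous_of_measurable π.X_cont hXm
  have hCu : Measurable (Function.uncurry (clock π.J)) :=
    measurable_uncurry_of_continuous_of_measurable (clock_cont π) hCm
  exact hXu.prodMk hCu

lemma gen_meas (π : SPolicy N μ Ω P) (f : (Fin N → ℝ) × (Fin N → ℝ) → ℝ) (hf : ContDiff ℝ 2 f) :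
    Measurable (Function.uncurry fun r ω => gen μ f (π.X r ω) (clock π.J r ω) (π.J r ω)
      (π.J r ω = π.jstar ω)) := by
  have hJ := H78.FL.J_joint π.obs π.J π.J_prog
  have hY := st_meas π
  have hjs : Measurable π.jstar := (π.jstar_full).mono (π.full.le 0) le_rfl
  have hind : Measurable (fun p : ℝ≥0 × Ω => if π.J p.1 p.2 = π.jstar p.2 then μ else 0) :=
    H99.FL.meas_pair (fun (i : Fin N) j => if j = i then μ else 0)
      (fun j => Measurable.of_discrete) (hjs.comp measurable_snd) hJ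
  have h1 : Measurable (fun p : ℝ≥0 × Ω => gA f (st π p.1 p.2) (π.J p.1 p.2)) :=
    H99.FL.meas_pair (fun y j => gA f y j) (fun j => (cont_gA f hf j).measurable) hY hJ
  have hf1 : ContDiff ℝ 1 f := hf.of_le (by norm_num)
  have h2 : Measurable (fun p : ℝ≥0 × Ω => gB f (st π p.1 p.2) (π.J p.1 p.2)) :=
    H99.FL.meas_pair (fun y j => gB f y j) (fun j => (cont_gB f hf1 j).measurable) hY hJ
  have h3 : Measurable (fun p : ℝ≥0 × Ω => gC f (st π p.1 p.2) (π.J p.1 p.2)) :=
    H99.FL.meas_pair (fun y j => gC f y j) (fun j => (cont_gC f hf1 j).measurable) hY hJ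
  have h4 : (Function.uncurry fun r ω => gen μ f (π.X r ω) (clock π.J r ω) (π.J r ω)
      (π.J r ω = π.jstar ω)) = fun p : ℝ≥0 × Ω => (1 / 2) * gA f (st π p.1 p.2) (π.J p.1 p.2) +
        (if π.J p.1 p.2 = π.jstar p.2 then μ else 0) * gB f (st π p.1 p.2) (π.J p.1 p.2) +
        gC f (st π p.1 p.2) (π.J p.1 p.2) := by
    funext p
    exact gen_eq μ f hf _ _ _ _
  rw [h4]
  exact ((measurable_const.mul h1).add (hind.mul h2)).add h3

/-- the martingale problem in integrated form -/
lemma dyn_eq (π : SPolicy N μ Ω P) (f : (Fin N → ℝ) × (Fin N → ℝ) → ℝ) (hf : IsTest f)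
    (s t : ℝ≥0) (hst : s ≤ t) (A : Set Ω) (hA : MeasurableSet[π.full s] A) :
    ∫ ω in A, f (st π t ω) ∂P - ∫ ω in A, f (st π s ω) ∂P =
      ∫ ω in A, (∫ r in (s : ℝ)..t, gen μ f (π.X r.toNNReal ω) (clock π.J r.toNNReal ω)
        (π.J r.toNNReal ω) (π.J r.toNNReal ω = π.jstar ω)) ∂P := by
  obtain ⟨C, hC0, hfC, hgC⟩ := gen_bdd μ f hf
  have hgm := gen_meas π f hf.smooth
  set F : ℝ≥0 → Ω → ℝ := fun r ω => gen μ f (π.X r ω) (clock π.J r ω) (π.J r ω)
      (π.J r ω = π.jstar ω) with hF
  have hFb : ∀ r ω, |F r ω| ≤ C := fun r ω => hgC _ _ _ _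
  have hmart := π.dynamics _ hf
  haveI hSF : SigmaFiniteFiltration P π.full := inferInstance
  have hM := hmart.setIntegral_eq hst hA
  have hst' : (s : ℝ) ≤ t := by exact_mod_cast hst
  have hfi : ∀ r : ℝ≥0, Integrable (fun ω => f (st π r ω)) P := by
    intro r
    have hm : Measurable (fun ω => st π r ω) := (st_meas π).comp (measurable_const.prodMk measurable_id)
    refine Integrable.of_bound (hf.smooth.continuous.measurable.comp hm).aestronglyMeasurable
      C (Filter.Eventually.of_forall fun ω => ?_)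
    rw [Real.norm_eq_abs]
    exact hfC _
  have hpath := H99.FL.path_integrable (P := P) hgm hFb s t hst' A
  have h1 := integral_sub (μ := P.restrict A) (hmart.integrable t).integrableOn
      (hmart.integrable s).integrableOn
  rw [hM, sub_self] at h1
  have h2 : ∫ ω in A, ((f (st π t ω) - f (st π s ω)) - ∫ r in (s : ℝ)..t, F r.toNNReal ω) ∂P
      = 0 := by
    rw [← h1]
    congr 1
    funext ω
    have h3 := intervalIntegral.integral_interval_sub_left
      (H99.FL.path_intervalIntegrable (F := F) hgm hFb 0 t ω)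
      (H99.FL.path_intervalIntegrable (F := F) hgm hFb 0 s ω)
    rw [← h3]
    simp only [hF, st]
    ring
  have hfd : Integrable (fun ω => f (st π t ω) - f (st π s ω)) (P.restrict A) :=
    ((hfi t).sub (hfi s)).integrableOn
  rw [integral_sub hfd hpath, integral_sub (hfi t).integrableOn (hfi s).integrableOn,
    sub_eq_zero] at h2
  exact h2

end pol

end H41.FL
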