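import Pool.Agent.H41.FL.Gen

/-!
# Crew FL, part ONE
-/

set_option autoImplicit false

open MeasureTheory ProbabilityTheory Filter Topology
open scoped NNReal ENNReal

universe u

namespace H41.FL
open H5.FL

section meas
variable {N : ℕ} {μ : ℝ} {Ω : Type u} [mΩ : MeasurableSpace Ω] {P : Measure Ω}
  [IsProbabilityMeasure P]

lemma cont_li (μ : ℝ) (i : Fin N) : Continuous (fun z : (Fin N → ℝ) × (Fin N → ℝ) => lin μ z i) := by
  unfold lin
  fun_prop

lemma st_meas' (π : SPolicy N μ Ω P) (r : ℝ≥0) : Measurable (fun ω => st π r ω) :=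
  (st_meas π).comp (measurable_const.prodMk measurable_id)

lemma y_meas (π : SPolicy N μ Ω P) (i : Fin N) : Measurable (fun p : ℝ≥0 × Ω =>
    Real.exp (-(lin μ (π.X p.1 p.2, clock π.J p.1 p.2) i))) :=
  ((cont_li μ i).measurable.comp (st_meas π)).neg.exp

lemma c_meas (π : SPolicy N μ Ω P) (θ α : ℝ) : Measurable (fun p : ℝ≥0 × Ω =>
    Real.cos (θ * (∑ j, π.X p.1 p.2 j) + α)) := by
  have hX : ∀ j : Fin N, Measurable (fun p : ℝ≥0 × Ω => π.X p.1 p.2 j) := fun j =>
    (measurable_pi_apply j).comp (measurable_fst.comp (st_meas π))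
  have h2 : Measurable (fun p : ℝ≥0 × Ω => ∑ j, π.X p.1 p.2 j) :=
    Finset.measurable_sum _ fun j _ => hX j
  exact ((h2.const_mul θ).add_const α).cos
lemma tn_meas : Measurable (fun p : ℝ × Ω => (p.1.toNNReal, p.2)) :=
  (measurable_real_toNNReal.comp measurable_fst).prodMk measurable_snd

lemma comp_tn (F : ℝ≥0 → Ω → ℝ) (hF : Measurable (Function.uncurry F)) :
    Measurable (fun p : ℝ × Ω => F p.1.toNNReal p.2) := by
  have h := hF.comp tn_meas
  have e : (fun p : ℝ × Ω => F p.1.toNNReal p.2) =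
      (Function.uncurry F) ∘ (fun p : ℝ × Ω => (p.1.toNNReal, p.2)) := by
    funext p; rfl
  rw [e]
  exact h

lemma comp_tn2 {β : Type*} [TopologicalSpace β] [MeasurableSpace β] [BorelSpace β]
    (S : ℝ≥0 → Ω → β) (hS : Measurable (fun p : ℝ≥0 × Ω => S p.1 p.2))
    (F : β → ℝ) (hF : Continuous F) : Measurable (fun p : ℝ × Ω => F (S p.1.toNNReal p.2)) := by
  have h := hF.measurable.comp (hS.comp tn_meas)
  have e : (fun p : ℝ × Ω => F (S p.1.toNNReal p.2)) =
      F ∘ ((fun p : ℝ≥0 × Ω => S p.1 p.2) ∘ (fun p : ℝ × Ω => (p.1.toNNReal, p.2))) := by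
    funext p; rfl
  rw [e]
  exact h
end meas

/-! ### an integral equation -/

/-- `M(u) = M(s) - λ ∫_s^u M` on `[s, T]` implies `M(T) = M(s) e^{-λ(T-s)}` -/
theorem ode (M : ℝ → ℝ) (lam s T : ℝ) (hsT : s ≤ T) (hint : IntervalIntegrable M volume s T)
    (h : ∀ u ∈ Set.Icc s T, M u = M s - lam * ∫ r in s..u, M r) :
    M T = Real.exp (-lam * (T - s)) * M s := by
  have hΦc : ContinuousOn (fun u => ∫ r in s..u, M r) (Set.Icc s T) := by
    have h1 := intervalIntegral.continuousOn_primitive_interval' hint Set.left_mem_uIcc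
    rwa [Set.uIcc_of_le hsT] at h1
  set g : ℝ → ℝ := fun u => max s (min u T) with hg
  have hgc : Continuous g := continuous_const.max (continuous_id.min continuous_const)
  have hgm : ∀ u, g u ∈ Set.Icc s T := fun u =>
    ⟨le_max_left _ _, max_le hsT (min_le_right _ _)⟩
  have hgi : ∀ u ∈ Set.Icc s T, g u = u := fun u hu => by
    simp only [hg]
    rw [min_eq_left hu.2, max_eq_right hu.1]
  set k : ℝ → ℝ := fun u => M s - lam * ∫ r in s..(g u), M r with hk
  have hkc : Continuous k :=
    continuous_const.sub (continuous_const.mul (hΦc.comp_continuous hgc hgm))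
  have hkM : ∀ u ∈ Set.Icc s T, k u = M u := fun u hu => by
    simp only [hk]
    rw [hgi u hu]
    exact (h u hu).symm
  have hG : ∀ u, HasDerivAt (fun u => ∫ r in s..u, k r) (k u) u := fun u =>
    intervalIntegral.integral_hasDerivAt_right (hkc.intervalIntegrable _ _)
      (hkc.stronglyMeasurableAtFilter _ _) hkc.continuousAt
  have hGΦ : ∀ u ∈ Set.Icc s T, ∫ r in s..u, k r = ∫ r in s..u, M r := fun u hu => by
    apply intervalIntegral.integral_congr
    intro r hr
    rw [Set.uIcc_of_le hu.1] at hr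
    exact hkM r ⟨hr.1, hr.2.trans hu.2⟩
  set Ψ : ℝ → ℝ := fun u => Real.exp (lam * (u - s)) * (M s - lam * ∫ r in s..u, k r) with hΨ
  have hΨd : ∀ u, HasDerivAt Ψ (Real.exp (lam * (u - s)) * (lam * 1) *
      (M s - lam * ∫ r in s..u, k r) + Real.exp (lam * (u - s)) * (0 - lam * k u)) u := by
    intro u
    have e1 : HasDerivAt (fun u => Real.exp (lam * (u - s)))
        (Real.exp (lam * (u - s)) * (lam * 1)) u :=
      (((hasDerivAt_id u).sub_const s).const_mul lam).exp
    have e2 : HasDerivAt (fun u => M s - lam * ∫ r in s..u, k r) (0 - lam * k u) u :=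
      (hasDerivAt_const u (M s)).sub ((hG u).const_mul lam)
    exact e1.mul e2
  have hΨ0 : ∀ u ∈ Set.Icc s T, HasDerivAt Ψ 0 u := by
    intro u hu
    have e := hΨd u
    have e1 : Real.exp (lam * (u - s)) * (lam * 1) *
      (M s - lam * ∫ r in s..u, k r) + Real.exp (lam * (u - s)) * (0 - lam * k u) = 0 := by
      have h1 := h u hu
      rw [← hkM u hu] at h1
      rw [hGΦ u hu, h1]
      ring
    rwa [e1] at e
  have hconst := constant_of_has_deriv_right_zero (f := Ψ) (a := s) (b := T)
    (fun u _ => (hΨd u).continuousAt.continuousWithinAt)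
    (fun u hu => (hΨ0 u ⟨hu.1, hu.2.le⟩).hasDerivWithinAt) T ⟨hsT, le_rfl⟩
  simp only [hΨ, sub_self, mul_zero, Real.exp_zero, one_mul, intervalIntegral.integral_same,
    sub_zero] at hconst
  have h2 := h T ⟨hsT, le_rfl⟩
  rw [← hGΦ T ⟨hsT, le_rfl⟩] at h2
  rw [← h2] at hconst
  rw [← hconst, ← mul_assoc, ← Real.exp_add]
  rw [show -lam * (T - s) + lam * (T - s) = 0 by ring, Real.exp_zero, one_mul]

/-! ### the function `h_R` -/

theorem hR_eq (R y : ℝ) (hRp : 0 < R) (hy : 0 < y) : hR R y = y - y ^ 2 / (R + y) := by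
  unfold H5.FL.hR
  field_simp
  ring

theorem hR_bd (R y : ℝ) (hRp : 0 < R) (hy : 0 < y) : 0 ≤ hR R y ∧ hR R y ≤ y := by
  constructor
  · unfold H5.FL.hR; positivity
  · rw [hR_eq R y hRp hy]
    have : 0 ≤ y ^ 2 / (R + y) := by positivity
    linarith

theorem er_bd (R y : ℝ) (hRp : 0 < R) (hy : 0 < y) : 0 ≤ y ^ 2 / (R + y) ∧ y ^ 2 / (R + y) ≤ y := by
  constructor
  · positivity
  · rw [div_le_iff₀ (by positivity)]
    nlinarith [mul_pos hy hRp]

theorem er_tendsto (y : ℝ) :
    Tendsto (fun n : ℕ => y ^ 2 / (((n : ℝ) + 1) + y)) atTop (𝓝 0) := by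
  apply tendsto_const_nhds.div_atTop
  exact tendsto_atTop_add_const_right _ _ (tendsto_atTop_add_const_right _ _
    tendsto_natCast_atTop_atTop)

theorem hR_tendsto (y : ℝ) (hy : 0 < y) :
    Tendsto (fun n : ℕ => hR ((n : ℝ) + 1) y) atTop (𝓝 y) := by
  have h : (fun n : ℕ => hR ((n : ℝ) + 1) y) = fun n : ℕ => y - y ^ 2 / (((n : ℝ) + 1) + y) := by
    funext n
    exact hR_eq _ _ (by positivity) hy
  rw [h]
  have := (tendsto_const_nhds (x := y)).sub (er_tendsto y)
  rwa [sub_zero] at this

theorem t_ONE (hFRT : S_FRT) (hGIN : S_GIN.{u}) : S_ONE.{u} := by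
  intro N μ Ω mΩ P _ π i θ α s t hst A hA hAi
  have hAm : MeasurableSet A := π.full.le s A hA
  have hjs : Measurable π.jstar := (π.jstar_full).mono (π.full.le 0) le_rfl
  set y : ℝ≥0 → Ω → ℝ := fun r ω => Real.exp (-(lin μ (π.X r ω, clock π.J r ω) i)) with hy
  set c : ℝ≥0 → Ω → ℝ := fun r ω => Real.cos (θ * (∑ j, π.X r ω j) + α) with hc
  have hy0 : ∀ r ω, 0 < y r ω := fun _ _ => Real.exp_pos _
  have hc1 : ∀ r ω, |c r ω| ≤ 1 := fun _ _ => Real.abs_cos_le_one _
  have hst' : (s : ℝ) ≤ t := by exact_mod_cast hst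
  -- measurability
  have hym : Measurable (Function.uncurry y) := y_meas π i
  have hcm : Measurable (Function.uncurry c) := c_meas π θ α
  have hyrm : ∀ r, Measurable (y r) := fun r => hym.of_uncurry_left
  -- integrability of `y`
  have hyI : ∀ r, IntegrableOn (y r) (π.jstar ⁻¹' {i}) P := fun r => by
    have h := (hGIN N μ Ω P π i r).1
    rwa [integrable_indicator_iff (hjs (measurableSet_singleton i))] at h
  have hyi : ∀ r, IntegrableOn (y r) A P := fun r => (hyI r).mono_set hAi
  have hyA : ∀ r, ∫ ω in A, y r ω ∂P ≤ 1 := fun r => by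
    refine le_trans ?_ (hGIN N μ Ω P π i r).2
    exact setIntegral_mono_set (hyI r) (Eventually.of_forall fun ω => (hy0 r ω).le)
      hAi.eventuallyLE
  set m : ℝ≥0 → ℝ := fun r => ∫ ω in A, y r ω * c r ω ∂P with hm
  set lam : ℝ := (1 / 2) * θ ^ 2 with hlam
  set K : ℝ := μ ^ 2 + |μ * θ| with hK
  have hK0 : 0 ≤ K := by positivity
  -- the test functions
  set f : ℕ → (Fin N → ℝ) × (Fin N → ℝ) → ℝ := fun n => fR ((n : ℝ) + 1) μ θ α i with hf
  have hfv : ∀ n r ω, f n (st π r ω) = hR ((n : ℝ) + 1) (y r ω) * c r ω := fun n r ω => rfl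
  have hft : ∀ n, IsTest (f n) := fun n => (hFRT N ((n : ℝ) + 1) μ θ α i (by positivity)).1
  have hfb : ∀ n r ω, |f n (st π r ω)| ≤ y r ω := fun n r ω => by
    rw [hfv, abs_mul]
    have h1 := hR_bd ((n : ℝ) + 1) (y r ω) (by positivity) (hy0 r ω)
    rw [abs_of_nonneg h1.1]
    calc hR ((n : ℝ) + 1) (y r ω) * |c r ω| ≤ y r ω * 1 :=
          mul_le_mul h1.2 (hc1 r ω) (abs_nonneg _) (hy0 r ω).le
      _ = y r ω := mul_one _
  have hfl : ∀ r ω, Tendsto (fun n => f n (st π r ω)) atTop (𝓝 (y r ω * c r ω)) := fun r ω => by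
    have := (hR_tendsto (y r ω) (hy0 r ω)).mul_const (c r ω)
    exact this
  set g : ℕ → ℝ≥0 → Ω → ℝ := fun n r ω => gen μ (f n) (π.X r ω) (clock π.J r ω) (π.J r ω)
      (π.J r ω = π.jstar ω) with hg
  have hgm : ∀ n, Measurable (Function.uncurry (g n)) := fun n => gen_meas π (f n) (hft n).smooth
  have hgl : ∀ n r, ∀ ω ∈ A, |g n r ω + lam * f n (st π r ω)| ≤
      K * (y r ω ^ 2 / (((n : ℝ) + 1) + y r ω)) := by
    intro n r ω hω
    have hji : π.jstar ω = i := hAi hω
    exact ((hFRT N ((n : ℝ) + 1) μ θ α i (by positivity)).2 (π.X r ω) (clock π.J r ω) (π.J r ω)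
      (π.J r ω = π.jstar ω) (by rw [hji])).1
  -- the integral equation
  have key : ∀ T : ℝ≥0, s ≤ T → IntervalIntegrable (fun r : ℝ => m r.toNNReal) volume s T ∧
      m T = m s - lam * ∫ r in (s : ℝ)..T, m r.toNNReal := by
    intro T hsT
    have hsT' : (s : ℝ) ≤ T := by exact_mod_cast hsT
    set I : Measure ℝ := volume.restrict (Set.Ioc (s : ℝ) T) with hI
    set ν := I.prod (P.restrict A) with hν
    have hae : ∀ᵐ p ∂ν, p.2 ∈ A := by
      rw [hν, hI, Measure.prod_restrict]
      exact ae_restrict_of_forall_mem (measurableSet_Ioc.prod hAm) (fun p hp => hp.2)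
    have hYm : Measurable (fun p : ℝ × Ω => y p.1.toNNReal p.2) := comp_tn y hym
    have hCm : Measurable (fun p : ℝ × Ω => c p.1.toNNReal p.2) := comp_tn c hcm
    have hYi : Integrable (fun p : ℝ × Ω => y p.1.toNNReal p.2) ν := by
      rw [hν, integrable_prod_iff hYm.aestronglyMeasurable]
      refine ⟨Eventually.of_forall fun r => hyi r.toNNReal, ?_⟩
      refine Integrable.of_bound
        (hYm.norm.stronglyMeasurable.integral_prod_right').aestronglyMeasurable 1
        (Eventually.of_forall fun r => ?_)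
      rw [Real.norm_eq_abs, abs_of_nonneg (integral_nonneg fun ω => norm_nonneg _)]
      refine le_trans (le_of_eq ?_) (hyA r.toNNReal)
      congr 1
      funext ω
      rw [Real.norm_eq_abs, abs_of_pos (hy0 _ _)]
    have hYCi : Integrable (fun p : ℝ × Ω => y p.1.toNNReal p.2 * c p.1.toNNReal p.2) ν := by
      refine hYi.mono (hYm.mul hCm).aestronglyMeasurable (Eventually.of_forall fun p => ?_)
      rw [Real.norm_eq_abs, Real.norm_eq_abs, abs_mul]
      exact mul_le_of_le_one_right (abs_nonneg _) (hc1 _ _)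
    have hmI : IntervalIntegrable (fun r : ℝ => m r.toNNReal) volume s T := by
      rw [intervalIntegrable_iff_integrableOn_Ioc_of_le hsT']
      exact hYCi.integral_prod_left
    have hYCv : ∫ p, y p.1.toNNReal p.2 * c p.1.toNNReal p.2 ∂ν =
        ∫ r in (s : ℝ)..T, m r.toNNReal := by
      rw [hν, integral_prod _ hYCi, intervalIntegral.integral_of_le hsT']
    refine ⟨hmI, ?_⟩
    -- the identity for `f n`
    have hfm : ∀ n, Measurable (fun p : ℝ × Ω => f n (st π p.1.toNNReal p.2)) := fun n =>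
      comp_tn2 (st π) (st_meas π) (f n) (hft n).smooth.continuous
    have hgφ : ∀ n, Measurable (fun p : ℝ × Ω => g n p.1.toNNReal p.2) := fun n =>
      comp_tn (g n) (hgm n)
    have hid : ∀ n, ∫ ω in A, f n (st π T ω) ∂P - ∫ ω in A, f n (st π s ω) ∂P =
        ∫ p, (g n p.1.toNNReal p.2 + lam * f n (st π p.1.toNNReal p.2)) ∂ν -
          lam * ∫ p, f n (st π p.1.toNNReal p.2) ∂ν := by
      intro n
      rw [dyn_eq π (f n) (hft n) s T hsT A hA]
      obtain ⟨C, hC0, hfC, hgC⟩ := gen_bdd μ (f n) (hft n)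
      have hgi : Integrable (fun p : ℝ × Ω => g n p.1.toNNReal p.2) ν :=
        Integrable.of_bound (hgφ n).aestronglyMeasurable C
          (Eventually.of_forall fun p => by rw [Real.norm_eq_abs]; exact hgC _ _ _ _)
      have hfi : Integrable (fun p : ℝ × Ω => f n (st π p.1.toNNReal p.2)) ν :=
        Integrable.of_bound (hfm n).aestronglyMeasurable C
          (Eventually.of_forall fun p => by rw [Real.norm_eq_abs]; exact hfC _)
      rw [integral_add hgi (hfi.const_mul lam), integral_const_mul, add_sub_cancel_right, hν,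
        integral_prod_symm _ hgi]
      congr 1
      funext ω
      rw [intervalIntegral.integral_of_le hsT']
    -- limits
    have L1 : ∀ r, Tendsto (fun n => ∫ ω in A, f n (st π r ω) ∂P) atTop (𝓝 (m r)) := by
      intro r
      refine tendsto_integral_of_dominated_convergence (y r) (fun n => ?_) (hyi r) (fun n => ?_) ?_
      · exact ((hft n).smooth.continuous.measurable.comp (st_meas' π r)).aestronglyMeasurable
      · exact Eventually.of_forall fun ω => by rw [Real.norm_eq_abs]; exact hfb n r ω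
      · exact Eventually.of_forall fun ω => hfl r ω
    have L2 : Tendsto (fun n => ∫ p, f n (st π p.1.toNNReal p.2) ∂ν) atTop
        (𝓝 (∫ p, y p.1.toNNReal p.2 * c p.1.toNNReal p.2 ∂ν)) := by
      refine tendsto_integral_of_dominated_convergence _ (fun n => (hfm n).aestronglyMeasurable)
        hYi (fun n => ?_) ?_
      · exact Eventually.of_forall fun p => by rw [Real.norm_eq_abs]; exact hfb n _ _
      · exact Eventually.of_forall fun p => hfl _ _
    have L3 : Tendsto (fun n => ∫ p, (g n p.1.toNNReal p.2 +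
        lam * f n (st π p.1.toNNReal p.2)) ∂ν) atTop (𝓝 (∫ _p, (0 : ℝ) ∂ν)) := by
      refine tendsto_integral_of_dominated_convergence (fun p => K * y p.1.toNNReal p.2)
        (fun n => ((hgφ n).add ((hfm n).const_mul lam)).aestronglyMeasurable)
        (hYi.const_mul K) (fun n => ?_) ?_
      · filter_upwards [hae] with p hp
        rw [Real.norm_eq_abs]
        refine (hgl n _ _ hp).trans ?_
        exact mul_le_mul_of_nonneg_left (er_bd _ _ (by positivity) (hy0 _ _)).2 hK0
      · filter_upwards [hae] with p hp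
        refine squeeze_zero_norm (fun n => ?_)
          (by simpa using (er_tendsto (y p.1.toNNReal p.2)).const_mul K)
        rw [Real.norm_eq_abs]
        exact hgl n _ _ hp
    rw [integral_zero] at L3
    have hL := (L1 T).sub (L1 s)
    have hR' := L3.sub (L2.const_mul lam)
    have heq := tendsto_nhds_unique (hL.congr hid) hR'
    rw [hYCv] at heq
    linarith
  have hfin := ode (fun r => m r.toNNReal) lam s t hst' (key t hst).1 (by
    intro u hu
    have hu0 : 0 ≤ u := (NNReal.coe_nonneg s).trans hu.1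
    have hsu : s ≤ u.toNNReal := by
      rw [← NNReal.coe_le_coe, Real.coe_toNNReal u hu0]
      exact hu.1
    have h1 := (key u.toNNReal hsu).2
    rw [Real.coe_toNNReal u hu0] at h1
    simp only [Real.toNNReal_coe]
    exact h1)
  simp only [Real.toNNReal_coe] at hfin
  rw [hm] at hfin
  simp only at hfin
  rw [hfin, hlam]
  congr 2
  ring

end H41.FL
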